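import Pool.Agent.T9h82.NA.Primary

/-!
# The retraction `R → S`

`S = Stot M w` is a direct summand of `R = Rg M` as an `S`-module (Reynolds operator of the torus
and the finite group).
-/

namespace Pool.Agent.T9h82.NA

open MvPolynomial Pool.Agent.T9h29.NA

set_option linter.unusedSectionVars false

universe u

section general

variable {K : Type u} [Field K] {B : Type} [Fintype B] [DecidableEq B] {ι : B → Type}
  [∀ b, Fintype (ι b)] [∀ b, DecidableEq (ι b)] {r : B → ℕ} {A : Type*} [AddCommGroup A]

/-- The exponent vectors of some degree `n` in every block and of weight `0`. -/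
def AllGood (w : Var ι → A) : Set (Var ι →₀ ℕ) := {m | ∃ n, m ∈ Good w n}

theorem part_allGood_mul_monomial (w : Var ι → A) {n : ℕ} {m : Var ι →₀ ℕ} (hm : m ∈ Good w n)
    (p : MvPolynomial (Var ι) K) (c : K) :
    part (AllGood w) (p * monomial m c) = part (AllGood w) p * monomial m c := by
  rw [part_mul_monomial]
  have hD : {m' | m' + m ∈ AllGood w} = AllGood w := by
    ext m'
    simp only [AllGood, Good, Set.mem_ofPred_eq, bdeg_add, wgt_add, hm.2, hm.1, add_zero]
    constructor
    · rintro ⟨k, h1, h2⟩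
      exact ⟨k - n, fun b => by have := h1 b; omega, h2⟩
    · rintro ⟨k, h1, h2⟩
      exact ⟨k + n, fun b => by rw [h1 b], h2⟩
  rw [hD]

theorem part_allGood_mem_idl (w : Var ι → A) (hw : ∀ v, 3 • w v = 0)
    (M : ∀ b, Matrix (Fin (r b)) (ι b) K) {x : MvPolynomial (Var ι) K}
    (hx : x ∈ idl M) : part (AllGood w) x ∈ idl M := by
  have key : ∀ a, part (AllGood w) (a * x) ∈ idl M := by
    unfold idl at hx
    induction hx using Submodule.span_induction with
    | mem x hx =>
      obtain ⟨b, j, rfl⟩ := hx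
      intro a
      have h : part (AllGood w) (a * cubic M b j) =
          part {m | ∃ n, (∀ b', bdeg m b' + (if b = b' then 3 else 0) = n) ∧ wgt w m = 0} a *
            cubic M b j := by
        rw [cubic_eq, Finset.mul_sum, Finset.mul_sum, map_sum]
        refine Finset.sum_congr rfl fun c _ => ?_
        rw [part_mul_monomial]
        congr 2
        ext m
        simp only [AllGood, Good, Set.mem_ofPred_eq, bdeg_add, wgt_add, bdeg_single, wgt_single,
          hw, add_zero]
      rw [h]
      exact Ideal.mul_mem_left _ _ (Ideal.subset_span ⟨b, j, rfl⟩)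
    | zero => intro a; rw [mul_zero, map_zero]; exact Ideal.zero_mem _
    | add x y _ _ hx hy => intro a; rw [mul_add, map_add]; exact Ideal.add_mem _ (hx a) (hy a)
    | smul c x _ hx => intro a; rw [smul_eq_mul, ← mul_assoc]; exact hx (a * c)
  have := key 1
  rwa [one_mul] at this

/-- The Reynolds operator on `R`. -/
noncomputable def rey (M : ∀ b, Matrix (Fin (r b)) (ι b) K) (w : Var ι → A) (x : Rg M) : Rg M :=
  Ideal.Quotient.mk (idl M) (part (AllGood w) (Quotient.out x))

theorem rey_mk (w : Var ι → A) (hw : ∀ v, 3 • w v = 0) (M : ∀ b, Matrix (Fin (r b)) (ι b) K)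
    (p : MvPolynomial (Var ι) K) :
    rey M w (Ideal.Quotient.mk (idl M) p) = Ideal.Quotient.mk (idl M) (part (AllGood w) p) := by
  unfold rey
  rw [Ideal.Quotient.eq, ← map_sub]
  refine part_allGood_mem_idl w hw M ?_
  rw [← Ideal.Quotient.eq]
  exact Quotient.out_eq _

theorem rey_mem (w : Var ι → A) (M : ∀ b, Matrix (Fin (r b)) (ι b) K) (x : Rg M) :
    rey M w x ∈ Stot M w := by
  unfold rey
  have h := part_mem (K := K) (AllGood w) (Quotient.out x)
  generalize part (AllGood w) (Quotient.out x) = p at h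
  rw [restrictSupport_eq_span] at h
  induction h using Submodule.span_induction with
  | mem x hx =>
    obtain ⟨m, ⟨n, hm⟩, rfl⟩ := hx
    exact mem_Stot w M n (mk_mem_Sn w M n (by rw [monomial_mem_restrictSupport]; exact Or.inl hm))
  | zero => rw [map_zero]; exact Subalgebra.zero_mem _
  | add x y _ _ hx hy => rw [map_add]; exact Subalgebra.add_mem _ hx hy
  | smul c x _ hx =>
    rw [← Ideal.Quotient.mkₐ_eq_mk K, map_smul, Ideal.Quotient.mkₐ_eq_mk]
    exact Subalgebra.smul_mem _ hx c

theorem rey_add (w : Var ι → A) (hw : ∀ v, 3 • w v = 0) (M : ∀ b, Matrix (Fin (r b)) (ι b) K)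
    (x y : Rg M) : rey M w (x + y) = rey M w x + rey M w y := by
  obtain ⟨p, rfl⟩ := Ideal.Quotient.mk_surjective x
  obtain ⟨q, rfl⟩ := Ideal.Quotient.mk_surjective y
  rw [← map_add, rey_mk w hw, rey_mk w hw, rey_mk w hw, map_add, map_add]

theorem rey_one (w : Var ι → A) (hw : ∀ v, 3 • w v = 0) (M : ∀ b, Matrix (Fin (r b)) (ι b) K) :
    rey M w 1 = 1 := by
  rw [← map_one (Ideal.Quotient.mk (idl M)), rey_mk w hw]
  congr 1
  rw [show (1 : MvPolynomial (Var ι) K) = monomial 0 1 from rfl, part_monomial, if_pos]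
  exact ⟨0, fun b => by simp [bdeg], by simp [wgt]⟩

theorem rey_mul (w : Var ι → A) (hw : ∀ v, 3 • w v = 0) (M : ∀ b, Matrix (Fin (r b)) (ι b) K)
    {s : Rg M} (hs : s ∈ Stot M w) : ∀ x : Rg M, rey M w (s * x) = s * rey M w x := by
  unfold Stot at hs
  induction hs using Algebra.adjoin_induction with
  | mem s hs =>
    obtain ⟨n, hn⟩ := Set.mem_iUnion.1 hs
    obtain ⟨q, hq, rfl⟩ := hn
    rw [SetLike.mem_coe, restrictSupport_eq_span] at hq
    intro x
    obtain ⟨p, rfl⟩ := Ideal.Quotient.mk_surjective x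
    change rey M w (Ideal.Quotient.mk (idl M) q * _) = Ideal.Quotient.mk (idl M) q * _
    rw [← map_mul, rey_mk w hw, rey_mk w hw, ← map_mul]
    congr 1
    clear hs
    induction hq using Submodule.span_induction with
    | mem y hy =>
      obtain ⟨m, hm, rfl⟩ := hy
      rw [mul_comm, part_allGood_mul_monomial w hm, mul_comm]
    | zero => simp
    | add y z _ _ hy hz => rw [add_mul, map_add, hy, hz, add_mul]
    | smul c y _ hy => rw [smul_mul_assoc, map_smul, hy, smul_mul_assoc]
  | algebraMap c =>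
    intro x
    obtain ⟨p, rfl⟩ := Ideal.Quotient.mk_surjective x
    rw [← Algebra.smul_def, ← Algebra.smul_def, ← Ideal.Quotient.mkₐ_eq_mk K, ← map_smul,
      Ideal.Quotient.mkₐ_eq_mk, rey_mk w hw, rey_mk w hw, map_smul, ← Ideal.Quotient.mkₐ_eq_mk K,
      map_smul]
  | add s t _ _ hs ht => intro x; rw [add_mul, rey_add w hw, hs, ht, add_mul]
  | mul s t _ _ hs ht => intro x; rw [mul_assoc, hs, ht, mul_assoc]

theorem rey_self (w : Var ι → A) (hw : ∀ v, 3 • w v = 0) (M : ∀ b, Matrix (Fin (r b)) (ι b) K)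
    {s : Rg M} (hs : s ∈ Stot M w) : rey M w s = s := by
  have := rey_mul w hw M hs 1
  rwa [mul_one, rey_one w hw, mul_one] at this

/-- **The retraction**: `S` is a direct summand of `R` as an `S`-module. -/
theorem exists_retraction (w : Var ι → A) (hw : ∀ v, 3 • w v = 0)
    (M : ∀ b, Matrix (Fin (r b)) (ι b) K) :
    ∃ ρ : Rg M →ₗ[Stot M w] Stot M w, ∀ s : Stot M w, ρ (s : Rg M) = s := by
  refine ⟨{ toFun := fun x => ⟨rey M w x, rey_mem w M x⟩
            map_add' := fun x y => Subtype.ext (rey_add w hw M x y)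
            map_smul' := fun s x => Subtype.ext ?_ }, fun s => Subtype.ext ?_⟩
  · exact rey_mul w hw M s.2 x
  · exact rey_self w hw M s.2

end general

end Pool.Agent.T9h82.NA
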