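import Pool.Agent.T9h29.NA.Iface
import Pool.Agent.T9h22.HS.Points

/-!
# `S_n` is primary to the irrelevant ideal

If every choice of sets `T_b` of more than `r_b` coordinates supports an exponent vector of
degree `n` and weight `0`, then `S_j ⊆ S_n S` for all large `j`.
-/

namespace Pool.Agent.T9h82.NA

open MvPolynomial Pool.Agent.T9h29.NA

set_option linter.unusedSectionVars false

universe u

section part

variable {K : Type*} [Field K] {σ : Type*}

open scoped Classical in
/-- The part of a polynomial which is supported on `D`. -/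
noncomputable def part (D : Set (σ →₀ ℕ)) : MvPolynomial σ K →ₗ[K] MvPolynomial σ K :=
  (basisMonomials σ K).constr K fun m => if m ∈ D then monomial m 1 else 0

open scoped Classical in
theorem part_monomial (D : Set (σ →₀ ℕ)) (m : σ →₀ ℕ) (c : K) :
    part D (monomial m c) = if m ∈ D then monomial m c else 0 := by
  have h : (monomial m c : MvPolynomial σ K) = c • basisMonomials σ K m := by
    rw [coe_basisMonomials, smul_monomial, smul_eq_mul, mul_one]
  rw [h, part, map_smul, Module.Basis.constr_basis]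
  split_ifs
  · rw [coe_basisMonomials]
  · simp

theorem part_mem (D : Set (σ →₀ ℕ)) (p : MvPolynomial σ K) : part D p ∈ restrictSupport K D := by
  induction p using MvPolynomial.induction_on' with
  | monomial m c =>
    rw [part_monomial]
    split_ifs with h
    · rw [monomial_mem_restrictSupport]; exact Or.inl h
    · exact Submodule.zero_mem _
  | add p q hp hq => rw [map_add]; exact Submodule.add_mem _ hp hq

theorem part_mul_monomial (D : Set (σ →₀ ℕ)) (p : MvPolynomial σ K) (m : σ →₀ ℕ) (c : K) :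
    part D (p * monomial m c) = part {m' | m' + m ∈ D} p * monomial m c := by
  induction p using MvPolynomial.induction_on' with
  | monomial m' c' =>
    rw [monomial_mul, part_monomial, part_monomial]
    by_cases h : m' + m ∈ D
    · rw [if_pos h, if_pos (by exact h), monomial_mul]
    · rw [if_neg h, if_neg (by exact h), zero_mul]
  | add p q hp hq => rw [add_mul, map_add, hp, hq, map_add, add_mul]

end part

section general

variable {K : Type u} [Field K] {B : Type} [Fintype B] [DecidableEq B] {ι : B → Type}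
  [∀ b, Fintype (ι b)] [∀ b, DecidableEq (ι b)] {r : B → ℕ}

theorem bdeg_add (m m' : Var ι →₀ ℕ) (b : B) : bdeg (m + m') b = bdeg m b + bdeg m' b := by
  simp [bdeg, Finset.sum_add_distrib]

theorem wgt_add {A : Type*} [AddCommGroup A] (w : Var ι → A) (m m' : Var ι →₀ ℕ) :
    wgt w (m + m') = wgt w m + wgt w m' := by
  simp [wgt, Finset.sum_add_distrib, add_smul]

theorem bdeg_single (v : Var ι) (k : ℕ) (b : B) :
    bdeg (Finsupp.single v k) b = if v.1 = b then k else 0 := by
  unfold bdeg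
  obtain ⟨b', c'⟩ := v
  by_cases h : b' = b
  · subst h
    rw [if_pos rfl, Finset.sum_eq_single c']
    · simp
    · intro c _ hc
      rw [Finsupp.single_apply, if_neg]
      intro h
      apply hc
      simpa using h.symm
    · intro h; exact absurd (Finset.mem_univ _) h
  · rw [if_neg h]
    refine Finset.sum_eq_zero fun c _ => ?_
    rw [Finsupp.single_apply, if_neg]
    intro h'
    exact h (congrArg Sigma.fst h')

theorem wgt_single {A : Type*} [AddCommGroup A] (w : Var ι → A) (v : Var ι) (k : ℕ) :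
    wgt w (Finsupp.single v k) = k • w v := by
  unfold wgt
  rw [Finset.sum_eq_single v]
  · simp
  · intro v' _ h
    rw [Finsupp.single_apply, if_neg (Ne.symm h), zero_smul]
  · intro h; exact absurd (Finset.mem_univ _) h

theorem cubic_eq (M : ∀ b, Matrix (Fin (r b)) (ι b) K) (b : B) (j : Fin (r b)) :
    cubic M b j = ∑ c, monomial (Finsupp.single (⟨b, c⟩ : Var ι) 3) (M b j c) := by
  unfold cubic
  refine Finset.sum_congr rfl fun c _ => ?_
  rw [X_pow_eq_monomial, C_mul_monomial, mul_one]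

theorem part_mul_cubic {A : Type*} [AddCommGroup A] (w : Var ι → A) (hw : ∀ v, 3 • w v = 0)
    (M : ∀ b, Matrix (Fin (r b)) (ι b) K) (n : ℕ) (b : B) (j : Fin (r b))
    (p : MvPolynomial (Var ι) K) :
    part (Good w n) (p * cubic M b j) =
      part {m | (∀ b', bdeg m b' + (if b = b' then 3 else 0) = n) ∧ wgt w m = 0} p *
        cubic M b j := by
  rw [cubic_eq, Finset.mul_sum, Finset.mul_sum, map_sum]
  refine Finset.sum_congr rfl fun c _ => ?_
  rw [part_mul_monomial]
  congr 2
  ext m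
  simp only [Good, Set.mem_ofPred_eq, bdeg_add, wgt_add, bdeg_single, wgt_single, hw, add_zero]

theorem part_mem_idl {A : Type*} [AddCommGroup A] (w : Var ι → A) (hw : ∀ v, 3 • w v = 0)
    (M : ∀ b, Matrix (Fin (r b)) (ι b) K) (n : ℕ) {x : MvPolynomial (Var ι) K}
    (hx : x ∈ idl M) : part (Good w n) x ∈ idl M := by
  have key : ∀ a, part (Good w n) (a * x) ∈ idl M := by
    unfold idl at hx
    induction hx using Submodule.span_induction with
    | mem x hx =>
      obtain ⟨b, j, rfl⟩ := hx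
      intro a
      rw [part_mul_cubic w hw]
      exact Ideal.mul_mem_left _ _ (Ideal.subset_span ⟨b, j, rfl⟩)
    | zero => intro a; rw [mul_zero, map_zero]; exact Ideal.zero_mem _
    | add x y _ _ hx hy => intro a; rw [mul_add, map_add]; exact Ideal.add_mem _ (hx a) (hy a)
    | smul c x _ hx => intro a; rw [smul_eq_mul, ← mul_assoc]; exact hx (a * c)
  have := key 1
  rwa [one_mul] at this

open scoped Classical in
/-- A nonzero zero of the cubics has more than `r` nonzero coordinates. -/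
theorem many_nonzero {r : ℕ} {κ : Type} [Fintype κ] [DecidableEq κ] (M : Matrix (Fin r) κ K)
    (hM : AllMinors M) (hc : r ≤ Fintype.card κ) (v : κ → K) (hv : v ≠ 0)
    (h : ∀ j, ∑ c, M j c * v c ^ 3 = 0) :
    r < (Finset.univ.filter fun c => v c ≠ 0).card := by
  by_contra hlt
  rw [not_lt] at hlt
  obtain ⟨T, hT1, hT2⟩ := Finset.exists_superset_card_eq hlt hc
  have e : Fin r ≃ T := (Fintype.equivFinOfCardEq (by rw [Fintype.card_coe, hT2])).symm
  let f : Fin r → κ := fun i => (e i : κ)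
  have hf : Function.Injective f := Subtype.val_injective.comp e.injective
  have hdet := hM f hf
  have h0 : (M.submatrix id f).mulVec (fun i => v (f i) ^ 3) = 0 := by
    ext j
    rw [Matrix.mulVec, dotProduct]
    have h1 : ∑ i, M.submatrix id f j i * v (f i) ^ 3 = ∑ t : T, M j t * v t ^ 3 := by
      rw [← e.sum_comp]
      rfl
    rw [h1, Finset.sum_coe_sort T (fun c => M j c * v c ^ 3)]
    rw [Pi.zero_apply, ← h j]
    refine Finset.sum_subset (Finset.subset_univ _) fun c _ hcT => ?_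
    have : v c = 0 := by
      by_contra hne
      exact hcT (hT1 (by simp [hne]))
    rw [this]; ring
  have h2 : (fun i => v (f i) ^ 3) = 0 := by
    by_contra hne
    exact hdet (Matrix.exists_mulVec_eq_zero_iff.1 ⟨_, hne, h0⟩)
  apply hv
  ext c
  by_contra hne
  have hcT : c ∈ T := hT1 (by simpa using hne)
  have h3 := congrFun h2 (e.symm ⟨c, hcT⟩)
  simp only [f, Equiv.apply_symm_apply, Pi.zero_apply] at h3
  exact hne (by simpa using pow_eq_zero_iff (three_ne_zero) |>.1 h3)

/-- The monomials of degree `n` and weight `0`. -/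
def mons (K : Type u) [Field K] {A : Type*} [AddCommGroup A] (w : Var ι → A) (n : ℕ) :
    Set (MvPolynomial (Var ι) K) := {f | ∃ m ∈ Good w n, f = monomial m 1}

theorem prod_mem_radical [IsAlgClosed K] {A : Type*} [AddCommGroup A] (w : Var ι → A)
    (M : ∀ b, Matrix (Fin (r b)) (ι b) K) (hM : ∀ b, AllMinors (M b))
    (hc : ∀ b, r b ≤ Fintype.card (ι b)) (n : ℕ)
    (H : ∀ T : ∀ b, Finset (ι b), (∀ b, r b < (T b).card) →
      ∃ m ∈ Good w n, ∀ v : Var ι, m v ≠ 0 → v.2 ∈ T v.1) (s : ∀ b, ι b) :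
    (∏ b, X (⟨b, s b⟩ : Var ι)) ∈ (idl M ⊔ Ideal.span (mons K w n)).radical := by
  classical
  refine Pool.Agent.T9h22.HS.mem_radical_of_points _ _ _ fun v hv1 hv2 => ?_
  by_contra hne
  rw [map_prod, ← ne_eq, Finset.prod_ne_zero_iff] at hne
  have hne' : ∀ b, v ⟨b, s b⟩ ≠ 0 := fun b => by simpa using hne b (Finset.mem_univ b)
  obtain ⟨m, hm, hmT⟩ := H (fun b => Finset.univ.filter fun c => v ⟨b, c⟩ ≠ 0) fun b => by
    refine many_nonzero (M b) (hM b) (hc b) (fun c => v ⟨b, c⟩) ?_ ?_
    · intro h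
      exact hne' b (congrFun h (s b))
    · intro j
      have := hv1 (cubic M b j) (Ideal.subset_span ⟨b, j, rfl⟩)
      simpa [cubic] using this
  have h1 := hv2 (monomial m 1) ⟨m, hm, rfl⟩
  rw [eval_monomial, one_mul, Finsupp.prod, Finset.prod_eq_zero_iff] at h1
  obtain ⟨i, hi, h2⟩ := h1
  have h3 := hmT i (by simpa using hi)
  have h4 : v i ≠ 0 := by simpa using h3
  exact h4 (pow_eq_zero_iff (by simpa using hi) |>.1 h2)

theorem exists_pow_mem [IsAlgClosed K] {A : Type*} [AddCommGroup A] (w : Var ι → A)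
    (M : ∀ b, Matrix (Fin (r b)) (ι b) K) (hM : ∀ b, AllMinors (M b))
    (hc : ∀ b, r b ≤ Fintype.card (ι b)) (n : ℕ)
    (H : ∀ T : ∀ b, Finset (ι b), (∀ b, r b < (T b).card) →
      ∃ m ∈ Good w n, ∀ v : Var ι, m v ≠ 0 → v.2 ∈ T v.1) :
    ∃ N, ∀ s : ∀ b, ι b,
      (∏ b, X (⟨b, s b⟩ : Var ι)) ^ N ∈ idl M ⊔ Ideal.span (mons K w n) := by
  choose N hN using prod_mem_radical w M hM hc n H
  refine ⟨∑ s, N s, fun s => ?_⟩
  rw [← Finset.sum_erase_add _ _ (Finset.mem_univ s), pow_add]
  exact Ideal.mul_mem_left _ _ (hN s)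

theorem monomial_mem [IsAlgClosed K] {A : Type*} [AddCommGroup A] (w : Var ι → A)
    (M : ∀ b, Matrix (Fin (r b)) (ι b) K) (hM : ∀ b, AllMinors (M b))
    (hc : ∀ b, r b ≤ Fintype.card (ι b)) (n : ℕ)
    (H : ∀ T : ∀ b, Finset (ι b), (∀ b, r b < (T b).card) →
      ∃ m ∈ Good w n, ∀ v : Var ι, m v ≠ 0 → v.2 ∈ T v.1) :
    ∃ j0, ∀ j, j0 ≤ j → ∀ m ∈ Good w j,
      (monomial m 1 : MvPolynomial (Var ι) K) ∈ idl M ⊔ Ideal.span (mons K w n) := by
  obtain ⟨N, hN⟩ := exists_pow_mem w M hM hc n H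
  refine ⟨(∑ b, Fintype.card (ι b)) * N + 1, fun j hj m hm => ?_⟩
  have hs : ∀ b, ∃ c, N ≤ m ⟨b, c⟩ := by
    intro b
    by_contra hcon
    push Not at hcon
    have h1 : bdeg m b ≤ Fintype.card (ι b) * N := by
      unfold bdeg
      calc ∑ c, m ⟨b, c⟩ ≤ ∑ _c : ι b, N := Finset.sum_le_sum fun c _ => (hcon c).le
        _ = _ := by simp
    have h2 : Fintype.card (ι b) ≤ ∑ b, Fintype.card (ι b) :=
      Finset.single_le_sum (f := fun b => Fintype.card (ι b)) (fun _ _ => Nat.zero_le _)
        (Finset.mem_univ b)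
    have h3 := Nat.mul_le_mul_right N h2
    have h4 := hm.1 b
    omega
  choose s hs using hs
  let m0 : Var ι →₀ ℕ := ∑ b, Finsupp.single (⟨b, s b⟩ : Var ι) N
  have hle : m0 ≤ m := by
    intro v
    obtain ⟨b, c⟩ := v
    have h1 : m0 ⟨b, c⟩ = if s b = c then N else 0 := by
      simp only [m0, Finsupp.coe_finsetSum, Finset.sum_apply]
      rw [Finset.sum_eq_single b]
      · rw [Finsupp.single_apply]
        by_cases h : s b = c
        · subst h; simp
        · rw [if_neg h, if_neg]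
          intro h'
          exact h (by simpa using h')
      · intro b' _ hb'
        rw [Finsupp.single_apply, if_neg]
        intro h'
        exact hb' (congrArg Sigma.fst h')
      · intro h; exact absurd (Finset.mem_univ _) h
    rw [h1]
    split_ifs with h
    · subst h; exact hs b
    · exact Nat.zero_le _
  have h2 : (monomial m 1 : MvPolynomial (Var ι) K) =
      monomial (m - m0) 1 * (∏ b, X (⟨b, s b⟩ : Var ι)) ^ N := by
    have h3 : (∏ b, X (⟨b, s b⟩ : Var ι)) ^ N = (monomial m0 1 : MvPolynomial (Var ι) K) := by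
      rw [← Finset.prod_pow, monomial_sum_one]
      refine Finset.prod_congr rfl fun b _ => ?_
      rw [X_pow_eq_monomial]
    rw [h3, monomial_mul, one_mul, tsub_add_cancel_of_le hle]
  rw [h2]
  exact Ideal.mul_mem_left _ _ (hN s)

theorem mk_mem_Sn {A : Type*} [AddCommGroup A] (w : Var ι → A)
    (M : ∀ b, Matrix (Fin (r b)) (ι b) K) (n : ℕ) {p : MvPolynomial (Var ι) K}
    (hp : p ∈ restrictSupport K (Good w n)) : Ideal.Quotient.mk (idl M) p ∈ Sn M w n :=
  ⟨p, hp, rfl⟩

theorem mem_Stot {A : Type*} [AddCommGroup A] (w : Var ι → A)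
    (M : ∀ b, Matrix (Fin (r b)) (ι b) K) (n : ℕ) {x : Rg M}
    (hx : x ∈ Sn M w n) : x ∈ Stot M w :=
  Algebra.subset_adjoin (Set.mem_iUnion.2 ⟨n, hx⟩)

theorem part_span_mem {A : Type*} [AddCommGroup A] (w : Var ι → A)
    (M : ∀ b, Matrix (Fin (r b)) (ι b) K) (n j : ℕ) {z : MvPolynomial (Var ι) K}
    (hz : z ∈ Ideal.span (mons K w n)) :
    ∀ a, ∃ s : Stot M w, s ∈ Ideal.span (grS M w n : Set (Stot M w)) ∧
      (s : Rg M) = Ideal.Quotient.mk (idl M) (part (Good w j) (a * z)) := by
  induction hz using Submodule.span_induction with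
  | mem x hx =>
    obtain ⟨m, hm, rfl⟩ := hx
    intro a
    rw [part_mul_monomial]
    have hsub : {m' | m' + m ∈ Good w j} ⊆ Good w (j - n) := by
      intro m' hm'
      obtain ⟨h1, h2⟩ := hm'
      obtain ⟨h3, h4⟩ := hm
      refine ⟨fun b => ?_, ?_⟩
      · have h5 := h1 b
        rw [bdeg_add, h3 b] at h5
        omega
      · rw [wgt_add, h4, add_zero] at h2
        exact h2
    have h1 : Ideal.Quotient.mk (idl M) (part {m' | m' + m ∈ Good w j} a) ∈ Sn M w (j - n) :=
      mk_mem_Sn w M _ (restrictSupport_mono K hsub (part_mem _ _))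
    have h2 : Ideal.Quotient.mk (idl M) (monomial m (1 : K)) ∈ Sn M w n :=
      mk_mem_Sn w M _ (by rw [monomial_mem_restrictSupport]; exact Or.inl hm)
    refine ⟨⟨_, mem_Stot w M _ h1⟩ * ⟨_, mem_Stot w M _ h2⟩, ?_, ?_⟩
    · refine Ideal.mul_mem_left _ _ (Ideal.subset_span ?_)
      exact h2
    · rw [map_mul]; rfl
  | zero =>
    intro a
    exact ⟨0, Ideal.zero_mem _, by simp⟩
  | add x y _ _ hx hy =>
    intro a
    obtain ⟨s, hs1, hs2⟩ := hx a
    obtain ⟨t, ht1, ht2⟩ := hy a
    refine ⟨s + t, Ideal.add_mem _ hs1 ht1, ?_⟩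
    rw [mul_add, map_add, map_add, ← hs2, ← ht2]; rfl
  | smul c x _ hx =>
    intro a
    obtain ⟨s, hs1, hs2⟩ := hx (a * c)
    refine ⟨s, hs1, ?_⟩
    rw [hs2, smul_eq_mul, mul_assoc]

/-- **`S_n` is primary to the irrelevant ideal.** -/
theorem primary [IsAlgClosed K] {A : Type*} [AddCommGroup A] (w : Var ι → A)
    (hw : ∀ v, 3 • w v = 0) (M : ∀ b, Matrix (Fin (r b)) (ι b) K) (hM : ∀ b, AllMinors (M b))
    (hc : ∀ b, r b ≤ Fintype.card (ι b)) (n : ℕ)
    (H : ∀ T : ∀ b, Finset (ι b), (∀ b, r b < (T b).card) →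
      ∃ m ∈ Good w n, ∀ v : Var ι, m v ≠ 0 → v.2 ∈ T v.1) :
    ∃ j0, ∀ j, j0 ≤ j → grS M w j ≤
      (Ideal.span (grS M w n : Set (Stot M w))).restrictScalars K := by
  obtain ⟨j0, hj0⟩ := monomial_mem w M hM hc n H
  refine ⟨j0, fun j hj => ?_⟩
  have key : ∀ p ∈ restrictSupport K (Good w j),
      ∃ s : Stot M w, s ∈ Ideal.span (grS M w n : Set (Stot M w)) ∧
        (s : Rg M) = Ideal.Quotient.mk (idl M) p := by
    intro p hp
    rw [restrictSupport_eq_span] at hp
    induction hp using Submodule.span_induction with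
    | mem x hx =>
      obtain ⟨m, hm, rfl⟩ := hx
      obtain ⟨y, hy, z, hz, e⟩ := Submodule.mem_sup.1 (hj0 j hj m hm)
      have h1 : part (Good w j) (monomial m (1 : K)) = monomial m 1 := by
        rw [part_monomial, if_pos hm]
      obtain ⟨s, hs1, hs2⟩ := part_span_mem w M n j hz 1
      refine ⟨s, hs1, ?_⟩
      rw [hs2, one_mul]
      change _ = Ideal.Quotient.mk (idl M) (monomial m 1)
      rw [← h1, ← e, map_add, map_add]
      rw [Ideal.Quotient.eq_zero_iff_mem.2 (part_mem_idl w hw M j hy), zero_add]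
    | zero => exact ⟨0, Ideal.zero_mem _, by simp⟩
    | add x y _ _ hx hy =>
      obtain ⟨s, hs1, hs2⟩ := hx
      obtain ⟨t, ht1, ht2⟩ := hy
      refine ⟨s + t, Ideal.add_mem _ hs1 ht1, ?_⟩
      rw [map_add, ← hs2, ← ht2]; rfl
    | smul c x _ hx =>
      obtain ⟨s, hs1, hs2⟩ := hx
      refine ⟨c • s, ?_, ?_⟩
      · rw [Algebra.smul_def]; exact Ideal.mul_mem_left _ _ hs1
      · rw [← Ideal.Quotient.mkₐ_eq_mk K, map_smul, Ideal.Quotient.mkₐ_eq_mk, ← hs2]; rfl
  intro x hx
  obtain ⟨p, hp, e⟩ := hx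
  obtain ⟨s, hs1, hs2⟩ := key p hp
  have : x = s := Subtype.ext (by rw [hs2]; exact e.symm)
  rw [this]
  exact hs1

/-- The irrelevant ideal is the radical of the ideal generated by `S_n`. -/
theorem irrelevant_le [IsAlgClosed K] {A : Type*} [AddCommGroup A] (w : Var ι → A)
    (hw : ∀ v, 3 • w v = 0) (M : ∀ b, Matrix (Fin (r b)) (ι b) K) (hM : ∀ b, AllMinors (M b))
    (hc : ∀ b, r b ≤ Fintype.card (ι b)) (n : ℕ)
    (H : ∀ T : ∀ b, Finset (ι b), (∀ b, r b < (T b).card) →
      ∃ m ∈ Good w n, ∀ v : Var ι, m v ≠ 0 → v.2 ∈ T v.1) [GradedAlgebra (grS M w)] :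
    (HomogeneousIdeal.irrelevant (grS M w)).toIdeal ≤
      (Ideal.span (grS M w n : Set (Stot M w))).radical := by
  classical
  obtain ⟨j0, hj0⟩ := primary w hw M hM hc n H
  intro x hx
  rw [← DirectSum.sum_support_decompose (grS M w) x]
  refine Ideal.sum_mem _ fun i hi => ?_
  have hi0 : i ≠ 0 := by
    rintro rfl
    rw [HomogeneousIdeal.mem_iff, HomogeneousIdeal.mem_irrelevant_iff] at hx
    rw [DFinsupp.mem_support_iff] at hi
    apply hi
    apply Subtype.ext
    exact hx
  have h1 : ((DirectSum.decompose (grS M w) x i : Stot M w)) ^ (j0 + 1) ∈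
      grS M w ((j0 + 1) • i) := SetLike.pow_mem_graded (j0 + 1) (SetLike.coe_mem _)
  refine ⟨j0 + 1, ?_⟩
  refine hj0 _ ?_ h1
  rw [smul_eq_mul]
  have := Nat.mul_le_mul_left (j0 + 1) (Nat.one_le_iff_ne_zero.2 hi0)
  omega

end general

end Pool.Agent.T9h82.NA
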