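import Pool.Agent.T9h82.NA.Primary

/-!
# The Jacobian criterion for the diagonal cubics
-/

namespace Pool.Agent.T9h82.NA

open MvPolynomial Pool.Agent.T9h29.NA

universe u

variable {K : Type u} [Field K]

/-- Choice of `r` nonzero coordinates of a nonzero zero. -/
theorem exists_coords {r : ℕ} {κ : Type} [Fintype κ] [DecidableEq κ] (M : Matrix (Fin r) κ K)
    (hM : AllMinors M) (hc : r ≤ Fintype.card κ) (v : κ → K) (hv : v ≠ 0)
    (h : ∀ j, ∑ c, M j c * v c ^ 3 = 0) :
    ∃ f : Fin r → κ, Function.Injective f ∧ ∀ i, v (f i) ≠ 0 := by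
  classical
  have h1 := many_nonzero M hM hc v hv h
  obtain ⟨T, hT1, hT2⟩ := Finset.exists_subset_card_eq h1.le
  have e : Fin r ≃ T := (Fintype.equivFinOfCardEq (by rw [Fintype.card_coe, hT2])).symm
  refine ⟨fun i => (e i : κ), Subtype.val_injective.comp e.injective, fun i => ?_⟩
  have := hT1 (e i).2
  simpa using this

/-- The Jacobian matrix has rank `r` at every nonzero zero. -/
theorem jacobian (h3 : (3 : K) ≠ 0) {r : ℕ} {κ : Type} [Fintype κ] [DecidableEq κ]
    (M : Matrix (Fin r) κ K) (hM : AllMinors M) (hc : r ≤ Fintype.card κ) (v : κ → K)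
    (hv : v ≠ 0) (h : ∀ j, ∑ c, M j c * v c ^ 3 = 0) :
    LinearIndependent K (fun (j : Fin r) (c : κ) => 3 * M j c * v c ^ 2) := by
  obtain ⟨f, hf, hne⟩ := exists_coords M hM hc v hv h
  have hdet : ((M.submatrix id f) * Matrix.diagonal fun i => 3 * v (f i) ^ 2).det ≠ 0 := by
    rw [Matrix.det_mul, Matrix.det_diagonal]
    refine mul_ne_zero (hM f hf) (Finset.prod_ne_zero_iff.2 fun i _ => ?_)
    exact mul_ne_zero h3 (pow_ne_zero 2 (hne i))
  have hli := (Matrix.linearIndependent_rows_iff_isUnit (K := K)).2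
    ((Matrix.isUnit_iff_isUnit_det _).2 (isUnit_iff_ne_zero.2 hdet))
  refine LinearIndependent.of_comp (LinearMap.funLeft K K f) ?_
  convert hli using 1
  ext j i
  simp [LinearMap.funLeft_apply, Matrix.row, Matrix.mul_diagonal]
  ring

/-- There are matrices all whose maximal minors are nonzero (Vandermonde matrices). -/
theorem exists_allMinors [CharZero K] (r : ℕ) (κ : Type) [Fintype κ] [DecidableEq κ] :
    ∃ M : Matrix (Fin r) κ K, AllMinors M := by
  let e := Fintype.equivFin κ
  refine ⟨fun j c => ((e c : ℕ) : K) ^ (j : ℕ), fun f hf => ?_⟩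
  have h1 : (Matrix.submatrix (fun (j : Fin r) (c : κ) => ((e c : ℕ) : K) ^ (j : ℕ)) id f :
      Matrix (Fin r) (Fin r) K) =
      (Matrix.vandermonde fun i => ((e (f i) : ℕ) : K)).transpose := by
    ext j i
    simp [Matrix.vandermonde_apply]
  rw [h1, Matrix.det_transpose, Matrix.det_vandermonde_ne_zero_iff]
  intro i j hij
  exact hf (e.injective (Fin.ext (Nat.cast_injective hij)))

end Pool.Agent.T9h82.NA
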